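import Pool.Agent.W763.PB.Stm

/-! Project PB, part J3: the norm formula for `D'`. -/

set_option autoImplicit false
set_option linter.unusedSectionVars false
open MeasureTheory Filter Topology
open scoped InnerProductSpace BoundedContinuousFunction

namespace Pool.Agent.W376.PB

open Pool.Agent.W763.PB

noncomputable section

variable {b m : ℕ} [NeZero b] [NeZero m]
variable {H : Type} [NormedAddCommGroup H] [InnerProductSpace ℂ H] [CompleteSpace H]

theorem Dg_symm (f : ZMod (b * m) → ℝ) (x y : Sp b m H) :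
    ⟪Dg b m f x, y⟫_ℂ = ⟪x, Dg b m f y⟫_ℂ := by
  rw [PiLp.inner_apply, PiLp.inner_apply]
  refine Finset.sum_congr rfl fun t _ => ?_
  rw [Dg_apply, Dg_apply, inner_smul_left, inner_smul_right, Complex.conj_ofReal]

theorem Dg_Dg (k : ℝ) (x : Sp b m H) : Dg b m (sw k b m) (Dg b m (ee b m) x) = 0 := by
  ext t
  rw [Dg_apply, Dg_apply, smul_smul]
  have : (((sw k b m t : ℝ) : ℂ) * ((ee b m t : ℝ) : ℂ)) = 0 := by
    unfold sw ee
    split_ifs <;> simp
  rw [this, zero_smul]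
  rfl

theorem pyth {E : Type*} [NormedAddCommGroup E] [InnerProductSpace ℂ E] (x y : E)
    (h : ⟪x, y⟫_ℂ = 0) : ‖x + y‖ ^ 2 = ‖x‖ ^ 2 + ‖y‖ ^ 2 := by
  have := norm_add_sq_eq_norm_sq_add_norm_sq_of_inner_eq_zero x y h
  rw [sq, sq, sq]; exact this

theorem j3 : S_J1 → S_J3 := by
  intro hJ1 k b m _ _ hk hb H _ _ _ U D hD
  obtain ⟨hJn, hJJ, -, hEJ, hWJ⟩ := hJ1 k b m hk hb H U
  set J := Jop k b m U with hJ
  set Ja := ContinuousLinearMap.adjoint J with hJa
  set s : ℂ := ((Real.sqrt k : ℝ) : ℂ) with hs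
  have hk0 : 0 ≤ k := by linarith
  have hDop : ∀ F, Dop k b m U D F = J (D (Ja F)) + s • (Dg b m (ee b m) F - J (Ja F))
      + Dg b m (sw k b m) F := fun F => Dop_apply k b m U D F
  have h1 : ∀ z F, ⟪J z, Dg b m (ee b m) F - J (Ja F)⟫_ℂ = 0 := by
    intro z F
    rw [inner_sub_right, ← Dg_symm, hEJ, ← ContinuousLinearMap.adjoint_inner_right J z F,
      ← ContinuousLinearMap.adjoint_inner_right J z (J (Ja F)), ← hJa, hJJ, sub_self]
  have h2 : ∀ z F, ⟪J z, Dg b m (sw k b m) F⟫_ℂ = 0 := by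
    intro z F
    rw [← Dg_symm, hWJ, inner_zero_left]
  have h3 : ∀ F, ⟪Dg b m (ee b m) F - J (Ja F), Dg b m (sw k b m) F⟫_ℂ = 0 := by
    intro F
    rw [inner_sub_left, h2, ← Dg_symm, Dg_Dg, inner_zero_left, sub_zero]
  refine ⟨?_, ?_, ?_, ?_⟩
  · intro F
    rw [hDop, pyth, pyth, hJn, norm_smul, mul_pow]
    · have : ‖s‖ ^ 2 = k := by
        rw [hs, Complex.norm_real, Real.norm_eq_abs, sq_abs, Real.sq_sqrt hk0]
      rw [this]
    · rw [inner_smul_right, h1, mul_zero]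
    · rw [inner_add_left, inner_smul_left, h2, h3, mul_zero, add_zero]
  · intro F
    have h4 : ‖(J (Ja F)) + (Dg b m (ee b m) F - J (Ja F))‖ ^ 2 =
        ‖J (Ja F)‖ ^ 2 + ‖Dg b m (ee b m) F - J (Ja F)‖ ^ 2 := pyth _ _ (h1 _ _)
    rw [add_sub_cancel, hJn] at h4
    linarith
  · intro x y
    rw [hDop, hDop]
    have e1 : ⟪J (D (Ja x)), y⟫_ℂ = ⟪x, J (D (Ja y))⟫_ℂ := by
      rw [← ContinuousLinearMap.adjoint_inner_right J (D (Ja x)) y, ← hJa, hD.sa,
        ← ContinuousLinearMap.adjoint_inner_left J (D (Ja y)) x]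
    have e2 : ⟪J (Ja x), y⟫_ℂ = ⟪x, J (Ja y)⟫_ℂ := by
      rw [← ContinuousLinearMap.adjoint_inner_right J (Ja x) y, ← hJa,
        ← ContinuousLinearMap.adjoint_inner_left J (Ja y) x]
    have e3 : (starRingEnd ℂ) s = s := by rw [hs, Complex.conj_ofReal]
    rw [inner_add_left, inner_add_left, inner_add_right, inner_add_right, inner_smul_left,
      inner_smul_right, inner_sub_left, inner_sub_right, e1, e2, e3, Dg_symm, Dg_symm]
  · intro x
    rw [hDop, hJJ, hEJ, hWJ, sub_self, smul_zero, add_zero, add_zero]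

end

end Pool.Agent.W376.PB
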